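import Pool.Agent.Results.MP_31144c_an.ExactGauge

/-!
Parked (a special case of the hand-in ExactGauge): the gauge of the planar Brownian path is the
exact gauge of the range in Stolz angles. The second theorem recovers the example from the
statement of the hand-in alone.
-/

namespace Pool.Agent.Work.MP_31144c_an.Parked

open Pool.Agent.Work.MP_31144c_an MeasureTheory Filter Topology Set

theorem taylorExact : (Strong fun r => Real.log (1 / r) * Real.log (Real.log (Real.log (1 / r)))) ∧
    ∀ g : ℝ → ℝ, Tendsto (fun r => g r /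
      (Real.log (1 / r) * Real.log (Real.log (Real.log (1 / r))))) (𝓝[>] 0) (𝓝 0) →
    ∃ f : ℂ → ℂ, DifferentiableOn ℂ f (Metric.ball 0 1) ∧ ∀ᵐ θ : ℝ,
      ¬ TypeA f (Complex.exp (θ * Complex.I)) ∧ ∀ C δ : ℝ,
        haus g (vals f (Complex.exp (θ * Complex.I))
          (stolz (Complex.exp (θ * Complex.I)) C δ)) = 0 ∧
        volume (vals f (Complex.exp (θ * Complex.I))
          (stolz (Complex.exp (θ * Complex.I)) C δ)) = 0 :=
  ⟨G.taylor, fun _ hg => partB hg⟩

theorem bare : ∃ f : ℂ → ℂ, DifferentiableOn ℂ f (Metric.ball 0 1) ∧ ∀ᵐ θ : ℝ,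
      ¬ TypeA f (Complex.exp (θ * Complex.I)) ∧ ∀ C δ : ℝ,
        volume (vals f (Complex.exp (θ * Complex.I))
          (stolz (Complex.exp (θ * Complex.I)) C δ)) = 0 := by
  have hT := (Results.MP_31144c_an.ExactGauge.result (fun _ => 0) (1 / 2) (by norm_num)
    (by norm_num)).out 3 0
  by_contra hn
  obtain ⟨C, -, h⟩ := hT.1 (fun ⟨f, hf, h⟩ => hn ⟨f, hf, h.mono fun θ h => ⟨h.1, fun C δ => (h.2 C δ).2⟩⟩)
  have hl : Tendsto (fun r : ℝ => Real.log (1 / r)) (𝓝[>] 0) atTop := by
    simp only [one_div]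
    exact Real.tendsto_log_atTop.comp tendsto_inv_nhdsGT_zero
  have hm : Ioo (0 : ℝ) (1 / 2) ∈ 𝓝[>] (0 : ℝ) := Ioo_mem_nhdsGT (by norm_num)
  have hd : ∀ r ∈ Ioo (0 : ℝ) (1 / 2), HasDerivAt (fun r => Real.log (Real.log (1 / r)))
      (-(1 / (r * Real.log (1 / r)))) r := fun r hr => by
    have h1 := G.Fin_pos hr.1 (hr.2.trans (by norm_num))
    have h2 := hr.1
    have := (((hasDerivAt_id r).inv h2.ne').log (by simpa using h2.ne')).log (by
      simpa [one_div] using h1.ne')
    convert this using 1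
    · simp
    · simp only [one_div, id, Pi.inv_apply] at h1 ⊢
      field_simp
  refine not_integrableOn_of_tendsto_norm_atTop_of_deriv_isBigO_filter (𝓝[>] (0 : ℝ))
    (f := fun r => Real.log (Real.log (1 / r))) hm ?_
    (tendsto_norm_atTop_atTop.comp (Real.tendsto_log_atTop.comp hl)) ?_ h
  · filter_upwards [hm] with r hr using (hd r hr).differentiableAt
  · refine Asymptotics.IsBigO.of_bound 1 ?_
    filter_upwards [hm] with r hr
    have he : env (fun _ => 0) r = 0 := le_antisymm ((H.env_le hr.1).trans (by simp)) (H.env_nonneg r)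
    rw [(hd r hr).deriv, he]
    simp

end Pool.Agent.Work.MP_31144c_an.Parked
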